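import Pool.Agent.Helper34.EC.Defs
import Pool.Agent.Helper47.RR.B3

set_option autoImplicit false
set_option linter.style.haveILetI false
set_option linter.unusedSectionVars false

namespace Pool.Agent.Helper4.EC

open Polynomial TensorProduct Pool.Agent.Helper16 Pool.Agent.Helper47.RR Pool.Agent.Helper34.EC
open IsDedekindDomain

section arith

/-- archimedean property -/
theorem le_of_pow_le {x y C : WithZero (Multiplicative ℤ)} (hy : y ≠ 0) (hC : C ≠ 0)
    (h : ∀ m : ℕ, x ^ m ≤ C * y ^ m) : x ≤ y := by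
  by_cases hx : x = 0
  · rw [hx]; exact zero_le
  rw [← WithZero.log_le_log hx hy]
  by_contra hlt
  rw [not_le] at hlt
  have hc : ∀ m : ℕ, (m : ℤ) * WithZero.log x ≤ WithZero.log C + m * WithZero.log y := by
    intro m
    have h1 := (WithZero.log_le_log (pow_ne_zero m hx) (mul_ne_zero hC (pow_ne_zero m hy))).2 (h m)
    rw [WithZero.log_mul hC (pow_ne_zero m hy), WithZero.log_pow, WithZero.log_pow] at h1
    simpa using h1
  have h2 := hc ((WithZero.log C).toNat + 1)
  have h3 : WithZero.log C ≤ ((WithZero.log C).toNat : ℤ) := Int.self_le_toNat _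
  push_cast at h2
  nlinarith

end arith

section filt

variable {F A : Type} [Field F] [CommRing A] [Algebra F A] {g : ℕ}

theorem exists_pos (P : Filt F A g) : ∃ d ∈ P.H, 0 < d := by
  have h1 : (P.H)ᶜ.Finite := Set.finite_of_encard_eq_coe P.gaps
  have h2 : P.H.Infinite := by
    intro hf
    exact Set.infinite_univ (α := ℕ) (by rw [← Set.union_compl_self P.H]; exact hf.union h1)
  obtain ⟨d, hd, h⟩ := h2.exists_gt 0
  exact ⟨d, hd, h⟩

/-- generators of `A` over `F[e_d]` -/
def RR (P : Filt F A g) (d : ℕ) : Set P.H := {r | ¬ ∃ s ∈ P.H, (r : ℕ) = s + d}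

theorem finite_RR (P : Filt F A g) (d : ℕ) : (RR P d).Finite := by
  have h1 : (P.H)ᶜ.Finite := Set.finite_of_encard_eq_coe P.gaps
  have h2 : (Subtype.val '' RR P d).Finite := by
    refine ((Set.finite_Iio d).union (h1.image (· + d))).subset ?_
    rintro _ ⟨r, hr, rfl⟩
    by_cases h : (r : ℕ) < d
    · exact Or.inl h
    · refine Or.inr ⟨r - d, ?_, ?_⟩
      · intro hmem
        exact hr ⟨_, hmem, by omega⟩
      · change (r : ℕ) - d + d = r
        omega
  exact Set.Finite.of_finite_image h2 Subtype.val_injective.injOn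

/-- the filtration by `F[e_d]` -/
def SS (P : Filt F A g) {d : ℕ} (hd : d ∈ P.H) (n : ℕ) : Submodule F A :=
  Submodule.span F {x | ∃ r ∈ RR P d, ∃ q : ℕ, (r : ℕ) + q * d ≤ n ∧ x = P.e r * P.e ⟨d, hd⟩ ^ q}

theorem SS_mono (P : Filt F A g) {d : ℕ} (hd : d ∈ P.H) {m n : ℕ} (h : m ≤ n) :
    SS P hd m ≤ SS P hd n := by
  apply Submodule.span_mono
  rintro _ ⟨r, hr, q, hq, rfl⟩
  exact ⟨r, hr, q, hq.trans h, rfl⟩

theorem SS_mul (P : Filt F A g) {d : ℕ} (hd : d ∈ P.H) {n : ℕ} {x : A} (hx : x ∈ SS P hd n) :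
    x * P.e ⟨d, hd⟩ ∈ SS P hd (n + d) := by
  induction hx using Submodule.span_induction with
  | mem x h =>
    obtain ⟨r, hr, q, hq, rfl⟩ := h
    refine Submodule.subset_span ⟨r, hr, q + 1, ?_, ?_⟩
    · rw [Nat.add_mul, one_mul]; omega
    · rw [pow_succ, mul_assoc]
  | zero => rw [zero_mul]; exact Submodule.zero_mem _
  | add x y _ _ h1 h2 => rw [add_mul]; exact Submodule.add_mem _ h1 h2
  | smul c x _ h1 => rw [smul_mul_assoc]; exact Submodule.smul_mem _ _ h1

theorem e_mem (P : Filt F A g) {d : ℕ} (hd : d ∈ P.H) (hd0 : 0 < d) :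
    ∀ (n : ℕ) (l : P.H), (l : ℕ) = n → P.e l ∈ SS P hd n := by
  intro n
  induction n using Nat.strong_induction_on with
  | _ n ih =>
    intro l hl
    by_cases hR : ∃ s ∈ P.H, (l : ℕ) = s + d
    · obtain ⟨s, hs, hsl⟩ := hR
      have h1 := P.mul ⟨s, hs⟩ ⟨d, hd⟩
      have h2 : Submodule.span F (P.e '' {l : P.H | (l : ℕ) < ((⟨s, hs⟩ : P.H) : ℕ) +
          ((⟨d, hd⟩ : P.H) : ℕ)}) ≤ SS P hd n := by
        rw [Submodule.span_le]
        rintro _ ⟨j, hj, rfl⟩
        have hj' : (j : ℕ) < s + d := hj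
        exact SS_mono P hd (by omega) (ih j (by omega) j rfl)
      have h3 : P.e ⟨s, hs⟩ * P.e ⟨d, hd⟩ ∈ SS P hd (s + d) :=
        SS_mul P hd (ih s (by omega) ⟨s, hs⟩ rfl)
      have h4 : s + d = n := by omega
      rw [h4] at h3
      have h5 := Submodule.sub_mem _ h3 (h2 h1)
      rw [sub_sub_cancel] at h5
      have h6 : l = ⟨s + d, P.add_mem hs hd⟩ := Subtype.ext hsl
      rw [h6]
      exact h5
    · exact Submodule.subset_span ⟨l, hR, 0, by omega, by rw [pow_zero, mul_one]⟩

theorem V_le_SS (P : Filt F A g) {d : ℕ} (hd : d ∈ P.H) (hd0 : 0 < d) (n : ℕ) :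
    P.V n ≤ SS P hd n := by
  unfold Filt.V
  rw [Submodule.span_le]
  rintro _ ⟨l, hl, rfl⟩
  exact SS_mono P hd hl (e_mem P hd hd0 l l rfl)

theorem V_mono (P : Filt F A g) {m n : ℕ} (h : m ≤ n) : P.V m ≤ P.V n := by
  apply Submodule.span_mono
  rintro _ ⟨l, hl, rfl⟩
  exact ⟨l, (show (l : ℕ) ≤ m from hl).trans h, rfl⟩

theorem exists_mem_V (P : Filt F A g) (a : A) : ∃ n, a ∈ P.V n := by
  have h : a ∈ Submodule.span F (Set.range P.e) := by rw [P.e.span_eq]; exact Submodule.mem_top
  induction h using Submodule.span_induction with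
  | mem x h =>
    obtain ⟨l, rfl⟩ := h
    exact ⟨l, Submodule.subset_span ⟨l, show (l : ℕ) ≤ l from le_refl _, rfl⟩⟩
  | zero => exact ⟨0, Submodule.zero_mem _⟩
  | add x y _ _ h1 h2 =>
    obtain ⟨m, hm⟩ := h1
    obtain ⟨n, hn⟩ := h2
    exact ⟨max m n, Submodule.add_mem _ (V_mono P (le_max_left _ _) hm)
      (V_mono P (le_max_right _ _) hn)⟩
  | smul c x _ h1 =>
    obtain ⟨m, hm⟩ := h1
    exact ⟨m, Submodule.smul_mem _ _ hm⟩

/-- `A` as an algebra over `F[X]`, `X ↦ e_d` -/
theorem finite_A (P : Filt F A g) {d : ℕ} (hd : d ∈ P.H) (hd0 : 0 < d) :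
    @Module.Finite F[X] A _ _ (aeval (P.e ⟨d, hd⟩)).toRingHom.toModule := by
  letI : Algebra F[X] A := (aeval (P.e ⟨d, hd⟩)).toRingHom.toAlgebra
  haveI : IsScalarTower F F[X] A := IsScalarTower.of_algebraMap_eq (fun r => by
    change _ = aeval (P.e ⟨d, hd⟩) (algebraMap F F[X] r)
    rw [AlgHom.commutes])
  refine ⟨⟨((finite_RR P d).image P.e).toFinset, ?_⟩⟩
  rw [eq_top_iff]
  rintro a -
  obtain ⟨n, hn⟩ := exists_mem_V P a
  have h1 := V_le_SS P hd hd0 n hn
  clear hn
  unfold SS at h1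
  induction h1 using Submodule.span_induction with
  | mem x h =>
    obtain ⟨r, hr, q, hq, rfl⟩ := h
    have h2 : P.e r * P.e ⟨d, hd⟩ ^ q = (X ^ q : F[X]) • P.e r := by
      rw [Algebra.smul_def]
      change _ = aeval (P.e ⟨d, hd⟩) (X ^ q) * _
      rw [map_pow, aeval_X, mul_comm]
    rw [h2]
    apply Submodule.smul_mem
    apply Submodule.subset_span
    rw [Set.Finite.coe_toFinset]
    exact ⟨r, hr, rfl⟩
  | zero => exact Submodule.zero_mem _
  | add x y _ _ h1 h2 => exact Submodule.add_mem _ h1 h2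
  | smul c x _ h1 => exact Submodule.smul_of_tower_mem _ _ h1

end filt

section main

variable {F A : Type} [Field F] [CommRing A] [Algebra F A] {g : ℕ}
variable {L : Type} [IsDomain A] [Field L] [Algebra A L] [IsFractionRing A L] [Algebra F L]
  [IsScalarTower F A L]

theorem inj_AL : Function.Injective (algebraMap A L) := IsFractionRing.injective A L

/-- the valuation bound on the filtration -/
theorem val_SS_le (P : Filt F A g) {d : ℕ} (hd : d ∈ P.H) (hd0 : 0 < d) (w : Place F L)
    (C : WithZero (Multiplicative ℤ)) (hC : ∀ r ∈ RR P d, w.val (algebraMap A L (P.e r)) ≤ C)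
    (n : ℕ) {x : A} (hx : x ∈ SS P hd n) :
    w.val (algebraMap A L x) ^ d ≤
      C ^ d * (max 1 (w.val (algebraMap A L (P.e ⟨d, hd⟩)))) ^ n := by
  set η := max 1 (w.val (algebraMap A L (P.e ⟨d, hd⟩))) with hη
  have hη1 : 1 ≤ η := le_max_left _ _
  have hηh : w.val (algebraMap A L (P.e ⟨d, hd⟩)) ≤ η := le_max_right _ _
  unfold SS at hx
  induction hx using Submodule.span_induction with
  | mem x h =>
    obtain ⟨r, hr, q, hq, rfl⟩ := h
    rw [map_mul, map_mul, map_pow, map_pow, mul_pow, ← pow_mul]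
    refine mul_le_mul' (pow_le_pow_left' (hC r hr) d) ?_
    calc w.val (algebraMap A L (P.e ⟨d, hd⟩)) ^ (q * d) ≤ η ^ (q * d) := pow_le_pow_left' hηh _
      _ ≤ η ^ n := pow_le_pow_right₀ hη1 (by omega)
  | zero => rw [map_zero, map_zero, zero_pow hd0.ne']; exact zero_le
  | add x y _ _ h1 h2 =>
    rw [map_add]
    have h3 := w.val.map_add (algebraMap A L x) (algebraMap A L y)
    rcases le_total (w.val (algebraMap A L x)) (w.val (algebraMap A L y)) with h | h
    · rw [max_eq_right h] at h3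
      exact (pow_le_pow_left' h3 d).trans h2
    · rw [max_eq_left h] at h3
      exact (pow_le_pow_left' h3 d).trans h1
  | smul c x _ h1 =>
    refine (pow_le_pow_left' ?_ d).trans h1
    rw [Algebra.smul_def, map_mul, map_mul, ← IsScalarTower.algebraMap_apply]
    calc _ ≤ 1 * w.val (algebraMap A L x) := by
          gcongr
          exact w.val_algebraMap_le c
      _ = _ := one_mul _

theorem mem_V_pow (P : Filt F A g) (v : Place F L)
    (hv : ∀ (M : ℕ) (a : A), v.val (algebraMap A L a) ≤ WithZero.exp (M : ℤ) ↔ a ∈ P.V M)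
    {n : ℕ} {a : A} (ha : a ∈ P.V n) (m : ℕ) : a ^ m ∈ P.V (n * m) := by
  rw [← hv] at ha ⊢
  rw [map_pow, map_pow]
  refine (pow_le_pow_left' ha m).trans ?_
  rw [← WithZero.exp_nsmul, WithZero.exp_le_exp]
  simp [mul_comm]

theorem exists_C (P : Filt F A g) (d : ℕ) (w : Place F L) :
    ∃ C : WithZero (Multiplicative ℤ), C ≠ 0 ∧
      ∀ r ∈ RR P d, w.val (algebraMap A L (P.e r)) ≤ C := by
  obtain ⟨C, hC⟩ := ((finite_RR P d).image fun r => w.val (algebraMap A L (P.e r))).bddAbove
  refine ⟨max C 1, ?_, ?_⟩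
  · exact (lt_of_lt_of_le zero_lt_one (le_max_right C 1)).ne'
  · intro r hr
    exact (hC ⟨r, hr, rfl⟩).trans (le_max_left _ _)

/-- the key bound -/
theorem val_pow_le (P : Filt F A g) {d : ℕ} (hd : d ∈ P.H) (hd0 : 0 < d) (v w : Place F L)
    (hv : ∀ (M : ℕ) (a : A), v.val (algebraMap A L a) ≤ WithZero.exp (M : ℤ) ↔ a ∈ P.V M)
    {n : ℕ} {a : A} (ha : a ∈ P.V n) :
    w.val (algebraMap A L a) ^ d ≤ (max 1 (w.val (algebraMap A L (P.e ⟨d, hd⟩)))) ^ n := by
  obtain ⟨C, hC0, hC⟩ := exists_C P d w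
  apply le_of_pow_le (C := C ^ d)
  · exact pow_ne_zero _ (lt_of_lt_of_le zero_lt_one (le_max_left _ _)).ne'
  · exact pow_ne_zero _ hC0
  · intro m
    have h1 := val_SS_le P hd hd0 w C hC (n * m) (V_le_SS P hd hd0 _ (mem_V_pow P v hv ha m))
    rw [map_pow, map_pow, ← pow_mul] at h1
    rw [← pow_mul, ← pow_mul, mul_comm d m]
    exact h1

theorem val_aeval_le (w : Place F L) (x : L) (B : WithZero (Multiplicative ℤ)) (hB : 1 ≤ B)
    (hx : w.val x ≤ B) (p : F[X]) (n : ℕ) (hn : p.natDegree ≤ n) :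
    w.val (aeval x p) ≤ B ^ n := by
  rw [aeval_eq_sum_range]
  apply w.val.map_sum_le
  intro i hi
  rw [Finset.mem_range] at hi
  rw [Algebra.smul_def, map_mul, map_pow]
  calc w.val (algebraMap F L (p.coeff i)) * w.val x ^ i ≤ 1 * B ^ n := by
        refine mul_le_mul' (w.val_algebraMap_le _) ?_
        exact (pow_le_pow_left' hx i).trans (pow_le_pow_right₀ hB (by omega))
    _ = _ := one_mul _

theorem val_aeval_eq (w : Place F L) (x : L) (hx : 1 < w.val x) (p : F[X]) (hp : p ≠ 0) :
    w.val (aeval x p) = w.val x ^ p.natDegree := by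
  have hlc : p.leadingCoeff ≠ 0 := leadingCoeff_ne_zero.2 hp
  have h0 : aeval x p = aeval x p.eraseLead + algebraMap F L p.leadingCoeff * x ^ p.natDegree := by
    conv_lhs => rw [← eraseLead_add_C_mul_X_pow p]
    rw [map_add, map_mul, aeval_C, map_pow, aeval_X]
  have h1 : w.val (algebraMap F L p.leadingCoeff * x ^ p.natDegree) = w.val x ^ p.natDegree := by
    rw [map_mul, map_pow, w.triv _ hlc, one_mul]
  have hpos : 0 < w.val x := lt_trans zero_lt_one hx
  rcases Nat.eq_zero_or_pos p.natDegree with hd | hd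
  · have h2 : p.eraseLead = 0 := by
      rw [eq_C_of_natDegree_eq_zero hd, ← monomial_zero_left, eraseLead_monomial]
    rw [h0, h2, map_zero, zero_add, h1]
  · rw [h0, w.val.map_add_eq_of_lt_right, h1]
    rw [h1]
    have h3 : p.eraseLead.natDegree ≤ p.natDegree - 1 := eraseLead_natDegree_le p
    refine (val_aeval_le w x (w.val x) hx.le le_rfl _ _ h3).trans_lt ?_
    exact pow_lt_pow_right₀ hx (by omega)

theorem V_zero_val (P : Filt F A g) (v : Place F L) {a : A} (ha : a ∈ P.V 0) (h0 : a ≠ 0) :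
    v.val (algebraMap A L a) = 1 := by
  have h1 : P.V 0 ≤ Submodule.span F {1} := by
    unfold Filt.V
    rw [Submodule.span_le]
    rintro _ ⟨l, hl, rfl⟩
    have hl' : (l : ℕ) = 0 := Nat.le_zero.1 hl
    have h2 : l = ⟨0, P.zero_mem⟩ := Subtype.ext hl'
    rw [h2, P.one]
    exact Submodule.subset_span rfl
  obtain ⟨c, rfl⟩ := Submodule.mem_span_singleton.1 (h1 ha)
  have hc : c ≠ 0 := by
    rintro rfl
    exact h0 (zero_smul _ _)
  rw [Algebra.smul_def, mul_one, ← IsScalarTower.algebraMap_apply]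
  exact v.triv c hc

theorem log_nonneg (P : Filt F A g) (v : Place F L)
    (hv : ∀ (M : ℕ) (a : A), v.val (algebraMap A L a) ≤ WithZero.exp (M : ℤ) ↔ a ∈ P.V M)
    {a : A} (h0 : a ≠ 0) : ∃ n : ℕ, v.val (algebraMap A L a) = WithZero.exp (n : ℤ) := by
  have hL0 : algebraMap A L a ≠ 0 := by
    rw [Ne, map_eq_zero_iff _ (IsFractionRing.injective A L)]
    exact h0
  have hv0 : v.val (algebraMap A L a) ≠ 0 := by simpa using hL0
  have h1 : 0 ≤ WithZero.log (v.val (algebraMap A L a)) := by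
    by_contra hneg
    rw [not_le] at hneg
    have h2 : v.val (algebraMap A L a) ≤ WithZero.exp ((0 : ℕ) : ℤ) := by
      rw [← WithZero.log_le_iff_le_exp hv0]
      simpa using hneg.le
    have h3 := V_zero_val (L := L) P v ((hv 0 a).1 h2) h0
    rw [h3] at hneg
    simp at hneg
  refine ⟨(WithZero.log (v.val (algebraMap A L a))).toNat, ?_⟩
  rw [Int.toNat_of_nonneg h1, WithZero.exp_log hv0]

/-- a place with a pole on `A` is the place at infinity -/
theorem eq_of_pole (P : Filt F A g) (v w : Place F L)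
    (hv : ∀ (M : ℕ) (a : A), v.val (algebraMap A L a) ≤ WithZero.exp (M : ℤ) ↔ a ∈ P.V M)
    {a₀ : A} (ha₀ : 1 < w.val (algebraMap A L a₀)) : w = v := by
  obtain ⟨d, hd, hd0⟩ := exists_pos P
  set h : A := P.e ⟨d, hd⟩ with hh
  have hwh : 1 < w.val (algebraMap A L h) := by
    by_contra hcon
    rw [not_lt] at hcon
    obtain ⟨n, hn⟩ := exists_mem_V P a₀
    have h1 := val_pow_le P hd hd0 v w hv hn
    rw [← hh, max_eq_left hcon, one_pow] at h1
    have h2 := one_lt_pow₀ ha₀ hd0.ne'
    exact absurd h1 (not_le.2 h2)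
  have hinj : ∀ {a : A}, a ≠ 0 → algebraMap A L a ≠ 0 := by
    intro a h0
    rw [Ne, map_eq_zero_iff _ (IsFractionRing.injective A L)]
    exact h0
  have hwv0 : ∀ (u : Place F L) {a : A}, a ≠ 0 → u.val (algebraMap A L a) ≠ 0 := by
    intro u a h0
    have := hinj h0
    simpa using this
  set η := WithZero.log (w.val (algebraMap A L h)) with hη
  have hh0 : h ≠ 0 := P.e.ne_zero _
  have hη0 : 0 < η := by
    have := (WithZero.log_lt_log one_ne_zero (hwv0 w hh0)).2 hwh
    simpa using this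
  have key1 : ∀ a : A, a ≠ 0 → (d : ℤ) * WithZero.log (w.val (algebraMap A L a)) ≤
      η * WithZero.log (v.val (algebraMap A L a)) := by
    intro a h0
    obtain ⟨n, hn⟩ := log_nonneg P v hv h0
    have h1 := val_pow_le P hd hd0 v w hv ((hv n a).1 hn.le)
    rw [← hh, max_eq_right hwh.le,
      ← WithZero.log_le_log (pow_ne_zero _ (hwv0 w h0)) (pow_ne_zero _ (hwv0 w hh0)),
      WithZero.log_pow, WithZero.log_pow] at h1
    rw [hn, WithZero.log_exp]
    simp only [nsmul_eq_mul] at h1
    rw [← hη] at h1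
    linarith [mul_comm (n : ℤ) η]
  have key2 : ∀ a : A, a ≠ 0 → (d : ℤ) * WithZero.log (w.val (algebraMap A L a)) =
      η * WithZero.log (v.val (algebraMap A L a)) := by
    intro a h0
    refine le_antisymm (key1 a h0) ?_
    letI : Algebra F[X] A := (aeval h).toRingHom.toAlgebra
    haveI : Module.Finite F[X] A := finite_A P hd hd0
    have hint : IsIntegral F[X] a := Algebra.IsIntegral.isIntegral a
    have hne := Ideal.comap_ne_bot_of_integral_mem (R := F[X]) (I := Ideal.span {a}) h0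
      (Ideal.mem_span_singleton_self a) hint
    obtain ⟨p, hp, hp0⟩ := Submodule.exists_mem_ne_zero_of_ne_bot hne
    rw [Ideal.mem_comap, Ideal.mem_span_singleton] at hp
    obtain ⟨b, hb⟩ := hp
    change aeval h p = a * b at hb
    have hbL : aeval (algebraMap A L h) p = algebraMap A L a * algebraMap A L b := by
      rw [← map_mul, ← hb, aeval_algebraMap_apply]
    have hw1 := val_aeval_eq w (algebraMap A L h) hwh p hp0
    have hb0 : b ≠ 0 := by
      rintro rfl
      rw [hbL, map_zero, mul_zero, map_zero] at hw1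
      exact pow_ne_zero _ (hwv0 w hh0) hw1.symm
    have hvh : v.val (algebraMap A L h) ≤ WithZero.exp (d : ℤ) := by
      rw [hv]
      exact Submodule.subset_span ⟨⟨d, hd⟩, show (d : ℕ) ≤ d from le_rfl, rfl⟩
    have hB : (1 : WithZero (Multiplicative ℤ)) ≤ WithZero.exp (d : ℤ) := by
      rw [← WithZero.exp_zero, WithZero.exp_le_exp]
      positivity
    have hv1 := val_aeval_le v (algebraMap A L h) _ hB hvh p _ le_rfl
    rw [hbL, map_mul] at hw1 hv1
    have hw2 := congrArg WithZero.log hw1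
    rw [WithZero.log_mul (hwv0 w h0) (hwv0 w hb0), WithZero.log_pow] at hw2
    have hv2 := (WithZero.log_le_log (mul_ne_zero (hwv0 v h0) (hwv0 v hb0))
      (pow_ne_zero _ WithZero.exp_ne_zero)).2 hv1
    rw [WithZero.log_mul (hwv0 v h0) (hwv0 v hb0), WithZero.log_pow, WithZero.log_exp] at hv2
    have hb1 := key1 b hb0
    simp only [nsmul_eq_mul] at hw2 hv2
    rw [← hη] at hw2
    nlinarith
  have key3 : ∀ x : L, x ≠ 0 → (d : ℤ) * WithZero.log (w.val x) = η * WithZero.log (v.val x) := by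
    intro x hx
    obtain ⟨a, b, hb, rfl⟩ := IsFractionRing.div_surjective (A := A) x
    have hb0 : b ≠ 0 := nonZeroDivisors.ne_zero hb
    have ha0 : a ≠ 0 := by
      rintro rfl
      exact hx (by rw [map_zero, zero_div])
    rw [map_div₀, map_div₀, WithZero.log_div (hwv0 w ha0) (hwv0 w hb0),
      WithZero.log_div (hwv0 v ha0) (hwv0 v hb0), mul_sub, mul_sub, key2 a ha0, key2 b hb0]
  apply Place.ext_val
  apply valuation_eq_of_le _ _ w.surj v.surj
  intro x hx
  by_cases hx0 : x = 0
  · rw [hx0, map_zero]; exact zero_le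
  · have h1 := key3 x hx0
    have hw0 : w.val x ≠ 0 := by simpa using hx0
    have hv0 : v.val x ≠ 0 := by simpa using hx0
    have h2 : WithZero.log (v.val x) ≤ 0 := by
      have := (WithZero.log_le_log hv0 one_ne_zero).2 hx
      simpa using this
    have h3 : WithZero.log (w.val x) ≤ 0 := by
      have hd' : (0 : ℤ) < d := by exact_mod_cast hd0
      nlinarith
    rw [← WithZero.exp_zero, ← WithZero.log_le_iff_le_exp hw0]
    exact h3

/-- regular functions outside the place at infinity -/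
theorem mem_of_forall [IsIntegrallyClosed A] (P : Filt F A g) (v : Place F L)
    (hv : ∀ (M : ℕ) (a : A), v.val (algebraMap A L a) ≤ WithZero.exp (M : ℤ) ↔ a ∈ P.V M)
    (f : L) (hf : ∀ w : Place F L, w ≠ v → w.val f ≤ 1) : ∃ a : A, algebraMap A L a = f := by
  obtain ⟨d, hd, hd0⟩ := exists_pos P
  letI : Algebra F[X] A := (aeval (P.e ⟨d, hd⟩)).toRingHom.toAlgebra
  haveI : Module.Finite F[X] A := finite_A P hd hd0
  haveI h1 : IsNoetherianRing A := IsNoetherianRing.of_finite F[X] A
  haveI h2 : Ring.DimensionLEOne A := Ring.DimensionLEOne.of_isIntegral F[X] A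
  haveI : IsDedekindDomain A := (isDedekindDomain_iff A L).2
    ⟨inferInstance, h1, h2, fun {x} hx => (isIntegrallyClosed_iff L).1 inferInstance hx⟩
  apply HeightOneSpectrum.mem_integers_of_valuation_le_one L f
  intro Q
  let w : Place F L :=
    { val := Q.valuation L
      surj := Q.valuation_surjective L
      triv := by
        intro a ha
        have h1 : IsUnit (algebraMap F A a) := (IsUnit.mk0 a ha).map _
        have h2 := Q.valuation_of_algebraMap (K := L) (algebraMap F A a)
        have h3 : Q.intValuation (algebraMap F A a) = 1 := by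
          rw [HeightOneSpectrum.intValuation_eq_one_iff]
          intro hmem
          exact Q.isPrime.ne_top (Ideal.eq_top_of_isUnit_mem _ hmem h1)
        rw [h3] at h2
        rw [IsScalarTower.algebraMap_apply F A L]
        exact h2 }
  have hw : ∀ a : A, w.val (algebraMap A L a) ≤ 1 := fun a => Q.valuation_le_one (K := L) a
  apply hf w
  intro hwv
  have h3 : P.e ⟨d, hd⟩ ∈ P.V 0 := by
    rw [← hv, ← hwv]
    simpa using hw (P.e ⟨d, hd⟩)
  unfold Filt.V at h3
  rw [P.e.self_mem_span_image] at h3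
  have h4 : d ≤ 0 := h3
  omega

/-- EC-A7 -/
theorem Lsp_single_eq [IsIntegrallyClosed A] (P : Filt F A g) (v : Place F L)
    (hv : ∀ (M : ℕ) (a : A), v.val (algebraMap A L a) ≤ WithZero.exp (M : ℤ) ↔ a ∈ P.V M)
    (M : ℕ) : Lsp (Finsupp.single v (M : ℤ)) =
      (P.V M).map (IsScalarTower.toAlgHom F A L).toLinearMap := by
  classical
  ext f
  rw [mem_Lsp, Submodule.mem_map]
  constructor
  · intro h
    obtain ⟨a, rfl⟩ := mem_of_forall P v hv f (fun w hw => by
      have := h w
      rw [Finsupp.single_apply, if_neg (fun h' => hw h'.symm), WithZero.exp_zero] at this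
      exact this)
    refine ⟨a, ?_, rfl⟩
    rw [← hv]
    have := h v
    rw [Finsupp.single_eq_same] at this
    exact this
  · rintro ⟨a, ha, rfl⟩ w
    change w.val (algebraMap A L a) ≤ _
    rw [Finsupp.single_apply]
    split_ifs with h
    · rw [← h]
      exact (hv M a).2 ha
    · rw [WithZero.exp_zero]
      by_contra hcon
      rw [not_le] at hcon
      exact h (eq_of_pole P v w hv hcon).symm

end main

end Pool.Agent.Helper4.EC
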